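import Pool.Agent.LE.StmtsM
import Pool.Agent.Helper42_LSH.CDP
import Pool.Agent.Helper11_Mob.Gzb
import Pool.Agent.Helper31_Mob.Weg

/-!
# CDZ: conduction at a complex energy above the band edge

The resolvent identity at a complex energy, the
Green function of the cube `B = box b (n + R)` compared with the one at the real energy (`PszStmt`),
and the boundary term bounded by the Combes-Thomas bound and the one site bound `UpzStmt`.
-/

set_option autoImplicit false
set_option linter.unusedSectionVars false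

open scoped Topology ENNReal NNReal BigOperators
open MeasureTheory Filter ProbabilityTheory

noncomputable section

namespace Pool.Agent.LE.MN.H87

open Pool.Agent.Anderson hiding box mem_box card_box
open Matrix Pool.Agent.Loc Pool.Agent.Mob Pool.Agent.Helper54.Bal
  Pool.Agent.BED Pool.Agent.LE

variable {d : ℕ}

/-! ### the resolvent identity at a complex energy -/

/-- the entries of `w - H` -/
def rmz (V : Site d → ℝ) (w : ℂ) (x y : Site d) : ℂ :=
  (if x = y then w - V x else 0) - (hop x y : ℂ)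

theorem mat_apply (V : Site d → ℝ) (Λ : Finset (Site d)) (w : ℂ) (x y : Λ) :
    (w • (1 : Matrix Λ Λ ℂ) - HC V Λ) x y = rmz V w x y := by
  unfold rmz
  simp only [HC, HM, Matrix.sub_apply, Matrix.smul_apply, smul_eq_mul, Matrix.map_apply,
    Matrix.of_apply, Matrix.one_apply]
  by_cases h : x = y
  · subst h
    simp only [if_true]
    push_cast
    ring
  · have h' : (x : Site d) ≠ y := fun hc => h (Subtype.ext hc)
    rw [if_neg h, if_neg h, if_neg h']
    push_cast
    ring

theorem gz_in {V : Site d → ℝ} {Λ : Finset (Site d)} {w : ℂ} (x y : Λ) :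
    gz V Λ w x y = (w • (1 : Matrix Λ Λ ℂ) - HC V Λ)⁻¹ x y := by
  rw [Pool.Agent.Mob.H31.gz_eq x.2 y.2]

theorem det_nez (V : Site d → ℝ) (Λ : Finset (Site d)) {w : ℂ} (hw : w.im ≠ 0) :
    (w • (1 : Matrix Λ Λ ℂ) - HC V Λ).det ≠ 0 :=
  ((Pool.Agent.Mob.H11.gzb d V Λ 0 0).2.1 w hw).1

theorem rmz_mul_gz {V : Site d → ℝ} {Λ : Finset (Site d)} {w : ℂ} (hw : w.im ≠ 0) {x y : Site d}
    (hx : x ∈ Λ) (hy : y ∈ Λ) :
    ∑ t ∈ Λ, rmz V w x t * gz V Λ w t y = if x = y then 1 else 0 := by
  have h1 := Matrix.mul_nonsing_inv (w • (1 : Matrix Λ Λ ℂ) - HC V Λ)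
    (isUnit_iff_ne_zero.2 (det_nez V Λ hw))
  have h2 := congrFun (congrFun h1 ⟨x, hx⟩) ⟨y, hy⟩
  rw [Matrix.mul_apply, Matrix.one_apply] at h2
  rw [← Finset.sum_coe_sort Λ (fun t => rmz V w x t * gz V Λ w t y)]
  have h3 : (if (⟨x, hx⟩ : Λ) = ⟨y, hy⟩ then (1 : ℂ) else 0) = if x = y then 1 else 0 := by
    by_cases h : x = y
    · subst h
      simp
    · have h' : (⟨x, hx⟩ : Λ) ≠ ⟨y, hy⟩ := fun hc => h (congrArg Subtype.val hc)
      rw [if_neg h, if_neg h']
  rw [← h3, ← h2]
  refine Finset.sum_congr rfl fun t _ => ?_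
  rw [mat_apply V Λ w ⟨x, hx⟩ t, ← gz_in t ⟨y, hy⟩]

theorem gz_mul_rmz {V : Site d → ℝ} {Λ : Finset (Site d)} {w : ℂ} (hw : w.im ≠ 0) {x y : Site d}
    (hx : x ∈ Λ) (hy : y ∈ Λ) :
    ∑ t ∈ Λ, gz V Λ w x t * rmz V w t y = if x = y then 1 else 0 := by
  have h1 := Matrix.nonsing_inv_mul (w • (1 : Matrix Λ Λ ℂ) - HC V Λ)
    (isUnit_iff_ne_zero.2 (det_nez V Λ hw))
  have h2 := congrFun (congrFun h1 ⟨x, hx⟩) ⟨y, hy⟩
  rw [Matrix.mul_apply, Matrix.one_apply] at h2
  rw [← Finset.sum_coe_sort Λ (fun t => gz V Λ w x t * rmz V w t y)]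
  have h3 : (if (⟨x, hx⟩ : Λ) = ⟨y, hy⟩ then (1 : ℂ) else 0) = if x = y then 1 else 0 := by
    by_cases h : x = y
    · subst h
      simp
    · have h' : (⟨x, hx⟩ : Λ) ≠ ⟨y, hy⟩ := fun hc => h (congrArg Subtype.val hc)
      rw [if_neg h, if_neg h']
  rw [← h3, ← h2]
  refine Finset.sum_congr rfl fun t _ => ?_
  rw [mat_apply V Λ w t ⟨y, hy⟩, ← gz_in ⟨x, hx⟩ t]

/-- geometric resolvent identity at a complex energy, both sites in the smaller set -/
theorem geo0z {V : Site d → ℝ} {Λ A : Finset (Site d)} {w : ℂ} (hA : A ⊆ Λ) (hw : w.im ≠ 0)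
    {x y : Site d} (hx : x ∈ A) (hy : y ∈ A) :
    gz V Λ w x y = gz V A w x y +
      ∑ u ∈ A, ∑ u' ∈ Λ \ A, gz V A w x u * (hop u u' : ℂ) * gz V Λ w u' y := by
  have e1 : ∀ u ∈ A, ∑ t ∈ A, rmz V w u t * gz V Λ w t y =
      (if u = y then 1 else 0) + ∑ u' ∈ Λ \ A, (hop u u' : ℂ) * gz V Λ w u' y := by
    intro u hu
    have h1 := rmz_mul_gz (V := V) hw (hA hu) (hA hy)
    rw [← Finset.sum_sdiff hA] at h1
    have h2 : ∑ t ∈ Λ \ A, rmz V w u t * gz V Λ w t y =
        - ∑ u' ∈ Λ \ A, (hop u u' : ℂ) * gz V Λ w u' y := by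
      rw [← Finset.sum_neg_distrib]
      apply Finset.sum_congr rfl
      intro t ht
      have hut : u ≠ t := by
        rintro rfl
        exact (Finset.mem_sdiff.1 ht).2 hu
      unfold rmz
      rw [if_neg hut]
      ring
    rw [h2] at h1
    linear_combination h1
  have e2 : ∑ u ∈ A, gz V A w x u * ∑ t ∈ A, rmz V w u t * gz V Λ w t y = gz V Λ w x y := by
    simp_rw [Finset.mul_sum]
    rw [Finset.sum_comm]
    have : ∀ t ∈ A, ∑ u ∈ A, gz V A w x u * (rmz V w u t * gz V Λ w t y) =
        (if x = t then 1 else 0) * gz V Λ w t y := by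
      intro t ht
      rw [← gz_mul_rmz (V := V) hw hx ht, Finset.sum_mul]
      apply Finset.sum_congr rfl
      intro u _
      ring
    rw [Finset.sum_congr rfl this]
    simp [hx]
  rw [← e2]
  have e3 : ∀ u ∈ A, gz V A w x u * ∑ t ∈ A, rmz V w u t * gz V Λ w t y =
      (if u = y then gz V A w x u else 0) +
        ∑ u' ∈ Λ \ A, gz V A w x u * (hop u u' : ℂ) * gz V Λ w u' y := by
    intro u hu
    rw [e1 u hu, mul_add, Finset.mul_sum]
    have e4 : gz V A w x u * (if u = y then 1 else 0) = if u = y then gz V A w x u else 0 := by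
      split_ifs <;> simp
    rw [e4]
    have e5 : ∑ u' ∈ Λ \ A, gz V A w x u * ((hop u u' : ℂ) * gz V Λ w u' y) =
        ∑ u' ∈ Λ \ A, gz V A w x u * (hop u u' : ℂ) * gz V Λ w u' y :=
      Finset.sum_congr rfl fun u' _ => by ring
    rw [e5]
  rw [Finset.sum_congr rfl e3, Finset.sum_add_distrib, Finset.sum_ite_eq', if_pos hy]

/-- the boundary term -/
theorem bdry_lez {V : Site d → ℝ} {Λ : Finset (Site d)} {w : ℂ} {T1 T2 : ℝ} {b y : Site d}
    {r : ℕ} (hT1 : 0 ≤ T1) (hT2 : 0 ≤ T2)
    (h1 : ∀ u, sd b u = r → ‖gz V (box b r) w b u‖ ≤ T1)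
    (h2 : ∀ u ∈ box b (r + 1), ‖gz V Λ w u y‖ ≤ T2) :
    ‖∑ u ∈ box b r, ∑ u' ∈ Λ \ box b r, gz V (box b r) w b u * (hop u u' : ℂ) *
      gz V Λ w u' y‖ ≤ (box b r).card * (2 * d * (T1 * T2)) := by
  refine (norm_sum_le _ _).trans ?_
  rw [← nsmul_eq_mul]
  refine Finset.sum_le_card_nsmul _ _ _ fun u hu => ?_
  refine (norm_sum_le _ _).trans ?_
  have h3 : ∀ u' ∈ Λ \ box b r, ‖gz V (box b r) w b u * (hop u u' : ℂ) * gz V Λ w u' y‖ ≤
      hop u u' * (T1 * T2) := by
    intro u' hu'
    rw [norm_mul, norm_mul, Complex.norm_real, Real.norm_eq_abs, abs_of_nonneg (hop_nonneg u u')]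
    by_cases hh : hop u u' = 0
    · rw [hh, mul_zero, zero_mul, zero_mul]
    · have hsd := sd_of_hop hh
      have hu1 := sd_le_iff.1 (mem_box.1 hu)
      have hu2 : ¬ sd b u' ≤ r := fun hc => (Finset.mem_sdiff.1 hu').2 (mem_box.2 hc)
      have hu3 : sd b u' ≤ r + 1 := by
        rw [sd_le_iff]
        intro i
        have a1 := hu1 i
        have a2 := sd_le_iff.1 hsd i
        have a3 : |b i - u' i| ≤ |b i - u i| + |u i - u' i| := abs_sub_le _ _ _
        push_cast at a2 ⊢
        linarith
      have hu4 : sd b u = r := by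
        apply le_antisymm (mem_box.1 hu)
        by_contra hc
        apply hu2
        have hc' : sd b u ≤ r - 1 := by omega
        have hr : 1 ≤ r := by omega
        rw [sd_le_iff]
        intro i
        have a1 := sd_le_iff.1 hc' i
        have a2 := sd_le_iff.1 hsd i
        have a3 : |b i - u' i| ≤ |b i - u i| + |u i - u' i| := abs_sub_le _ _ _
        have a4 : ((r - 1 : ℕ) : ℤ) = r - 1 := by
          rw [Nat.cast_sub hr]
          rfl
        rw [a4] at a1
        push_cast at a2
        linarith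
      have g1 := h1 u hu4
      have g2 := h2 u' (mem_box.2 hu3)
      calc ‖gz V (box b r) w b u‖ * hop u u' * ‖gz V Λ w u' y‖
          ≤ T1 * hop u u' * T2 := by
            gcongr
            · exact mul_nonneg hT1 (hop_nonneg u u')
            · exact hop_nonneg u u'
        _ = _ := by ring
  refine (Finset.sum_le_sum h3).trans ?_
  rw [← Finset.sum_mul]
  exact mul_le_mul_of_nonneg_right (sum_hop_le u _) (mul_nonneg hT1 hT2)

/-- deterministic part: from the lower bound for the cube `B` to the large cube -/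
theorem cdz_det (psz : PszStmt) (cts : CtsStmt) (hd : 1 ≤ d)
    {M' n R N : ℕ} [NeZero M'] {z μ lam η X : ℝ} {V : Site d → ℝ} {b : Site d} {i : Fin d}
    (hX0 : 0 ≤ X)
    (cde : Real.exp (-X) ≤ gr V (box b (n + R)) (z + lam) b (b + Pi.single i (n : ℤ)))
    (hz0 : 0 ≤ z) (hz : z ≤ 2 * d + 1)
    (hlam : 0 < lam) (hlam2 : lam ≤ 1 / 2) (hμ : 0 < μ) (hη : 0 < η)
    (hM : 2 * (n + R) + 5 ≤ M') (hnR : n ≤ R) (hR : 1 ≤ R)
    (hbox : box b (n + R + 1) ⊆ box 0 N)
    (hF : FlatE (1 / 50) z μ (fun x : Tor d M' => V (b + rep x)))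
    (hw : ∀ u ∈ box b (n + R + 1), ‖gz V (box 0 N) (zc (z + lam) η) u
      (b + Pi.single i (n : ℤ))‖ ≤ Real.exp (Real.sqrt lam * R / 8))
    (hη2 : 2 * (X + Real.log (1 / lam) + 4) * η ≤ lam)
    (hlog : Real.log (32 * d) + d * Real.log (6 * R) + Real.log (1 / lam) + X ≤
      3 * (Real.sqrt lam * R) / 8) :
    DZ (box 0 N) (zc (z + lam) η) V b (b + Pi.single i (n : ℤ)) ≤ X + 3 := by
  set s : ℝ := Real.sqrt lam with hs
  have hs0 : 0 < s := Real.sqrt_pos.2 hlam
  have hs2 : s ^ 2 = lam := Real.sq_sqrt hlam.le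
  have hd1 : (1 : ℝ) ≤ d := by exact_mod_cast hd
  have hR1 : (1 : ℝ) ≤ R := by exact_mod_cast hR
  have hn0 : (0 : ℝ) ≤ n := Nat.cast_nonneg n
  have hnR' : (n : ℝ) ≤ R := by exact_mod_cast hnR
  have hL0 : 0 ≤ Real.log (1 / lam) := by
    apply Real.log_nonneg
    rw [le_div_iff₀ hlam, one_mul]
    linarith
  set Λ := box (0 : Site d) N with hΛ
  set r := n + R with hr
  set B := box b r with hB
  set x := b + Pi.single i (n : ℤ) with hx
  set E := z + lam with hE
  have hBΛ : B ⊆ Λ := by
    refine Finset.Subset.trans ?_ hbox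
    intro y hy
    rw [hB, mem_box] at hy
    rw [mem_box]
    omega
  -- form bound
  have hflat : Flat z μ (fun x : Tor d M' => V (b + rep x)) := by
    refine ⟨hF.1, hF.2.1, fun x => (hF.2.2 x).trans ?_⟩
    linarith
  have hbd : ∀ y ∈ box (0 : Site d) r, ∀ j, 2 * (|y j| + 1) < (M' : ℤ) := by
    intro y hy j
    have h1 := sd_le_iff.1 (mem_box.1 hy) j
    rw [Pi.zero_apply, zero_sub, abs_neg] at h1
    have h5 : (2 * ((n : ℤ) + R) + 5) ≤ M' := by exact_mod_cast hM
    rw [hr] at h1
    push_cast at h1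
    linarith
  have hform : ∀ u : Site d → ℝ, lam * ∑ y ∈ B, u y ^ 2 ≤ qform V B E u := by
    intro u
    have h1 := H28W.qform_flat (W := fun y => V (b + y)) (box 0 r) hbd hflat
      (fun y => u (b + y))
    rw [← H42Z.qform_shift V b r z u] at h1
    rw [qform_eq] at h1 ⊢
    rw [hE]
    rw [← hB] at h1
    linarith
  -- lower bound of the potential
  have hV : ∀ y ∈ B, -1 ≤ V y := by
    intro y hy
    have hy' : y - b ∈ box (0 : Site d) r := by
      rw [mem_box, sd_le_iff]
      intro j
      have h1 := sd_le_iff.1 (mem_box.1 hy) j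
      rw [Pi.zero_apply, zero_sub, abs_neg, Pi.sub_apply, abs_sub_comm]
      exact h1
    have h2 : -1 ≤ V (b + rep (fun j => (((y - b) j : ℤ) : ZMod M'))) := hF.1 _
    rw [H73.rep_coe (y - b) (fun j => by
      have := hbd _ hy' j
      linarith), add_sub_cancel] at h2
    exact h2
  -- Combes-Thomas
  have hκ : (s / 2) ^ 2 ≤ 1 := by
    rw [div_pow, hs2]
    linarith
  obtain ⟨hdetB, hct⟩ := cts d V B E lam (s / 2) (lam / 2) hd (by positivity) (by positivity)
    (by
      have := H42Z.cosh_bound hκ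
      rw [div_pow, hs2] at this
      linarith) hform
  have hxB : x ∈ B := by
    rw [hB, mem_box, hx, sd_le_iff]
    intro j
    rw [Pi.add_apply, sub_add_cancel_left, abs_neg]
    by_cases hj : j = i
    · subst hj
      rw [Pi.single_eq_same, abs_of_nonneg (by positivity)]
      rw [hr]
      push_cast
      linarith [(Nat.cast_nonneg R : (0 : ℤ) ≤ R)]
    · rw [Pi.single_eq_of_ne hj, abs_zero]
      positivity
  have hbB : b ∈ B := by
    rw [hB, mem_box, sd_le_iff]
    intro j
    rw [sub_self, abs_zero]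
    positivity
  have hE0 : 0 ≤ E := by rw [hE]; linarith
  have him : (zc E η).im ≠ 0 := by
    have : (zc E η).im = η := by
      unfold zc
      simp
    rw [this]
    exact hη.ne'
  have hid := geo0z (V := V) hBΛ him hbB hxB
  have hup : ∀ u, ‖gz V B (zc E η) b u‖ ≤ gr V B E b u := fun u =>
    (psz d V B E lam η b u hd hlam hη hE0 hV hform).1
  have hT1 : ∀ u, sd b u = r → ‖gz V B (zc E η) b u‖ ≤ 2 / lam * Real.exp (-(s * R / 2)) := by
    intro u hu
    refine (hup u).trans ((le_abs_self _).trans ((hct b u).trans ?_))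
    rw [hu]
    have h1 : 1 / (lam / 2) = 2 / lam := by
      field_simp
    rw [h1]
    apply mul_le_mul_of_nonneg_left _ (by positivity)
    apply Real.exp_le_exp.2
    rw [hr]
    push_cast
    nlinarith [mul_nonneg hs0.le hn0]
  have hbdry := bdry_lez (V := V) (Λ := Λ) (w := zc E η) (b := b) (y := x) (r := r)
    (T1 := 2 / lam * Real.exp (-(s * R / 2))) (T2 := Real.exp (s * R / 8)) (by positivity)
    (by positivity) hT1 hw
  rw [← hB] at hbdry
  set T : ℂ := ∑ u ∈ B, ∑ u' ∈ Λ \ B, gz V B (zc E η) b u * (hop u u' : ℂ) *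
    gz V Λ (zc E η) u' x with hT
  have hcard : ((B.card : ℕ) : ℝ) ≤ (6 * R : ℝ) ^ d := by
    rw [hB, card_box]
    push_cast
    apply pow_le_pow_left₀ (by positivity)
    rw [hr]
    push_cast
    linarith
  have hTle : ‖T‖ ≤ Real.exp (-X) / 8 := by
    refine hbdry.trans ?_
    have e1 : (32 * d : ℝ) * (6 * R) ^ d * (1 / lam) ≤
        Real.exp (3 * (s * R) / 8 - X) := by
      have hpos : (0 : ℝ) < 32 * d * (6 * R) ^ d * (1 / lam) := by positivity
      rw [← Real.log_le_iff_le_exp hpos, Real.log_mul (by positivity) (by positivity),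
        Real.log_mul (by positivity) (by positivity), Real.log_pow]
      linarith
    have e2 : (B.card : ℝ) * (2 * d * (2 / lam * Real.exp (-(s * R / 2)) * Real.exp (s * R / 8))) ≤
        (6 * R) ^ d * (2 * d * (2 / lam * Real.exp (-(s * R / 2)) * Real.exp (s * R / 8))) :=
      mul_le_mul_of_nonneg_right hcard (by positivity)
    refine e2.trans ?_
    have e3 : (6 * R : ℝ) ^ d * (2 * d * (2 / lam * Real.exp (-(s * R / 2)) *
        Real.exp (s * R / 8))) = ((32 * d : ℝ) * (6 * R) ^ d * (1 / lam)) *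
          (Real.exp (-(s * R / 2)) * Real.exp (s * R / 8)) / 8 := by
      ring
    rw [e3, ← Real.exp_add]
    have e4 : ((32 * d : ℝ) * (6 * R) ^ d * (1 / lam)) * Real.exp (-(s * R / 2) + s * R / 8) ≤
        Real.exp (3 * (s * R) / 8 - X) *
          Real.exp (-(s * R / 2) + s * R / 8) :=
      mul_le_mul_of_nonneg_right e1 (Real.exp_pos _).le
    rw [← Real.exp_add] at e4
    have e5 : Real.exp (3 * (s * R) / 8 - X +
        (-(s * R / 2) + s * R / 8)) ≤ Real.exp (-X) := by
      apply Real.exp_le_exp.2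
      linarith
    linarith
  -- the cube at the complex energy
  set S : ℝ := E + 2 * d + 2 with hSdef
  have hS1 : 1 ≤ S := by rw [hSdef]; linarith
  have hS0 : 0 < S := by linarith
  set m : ℕ := ⌈S / lam * (Real.log (8 / lam) + X)⌉₊ with hm
  have h8l : Real.log (8 / lam) = Real.log 8 + Real.log (1 / lam) := by
    rw [← Real.log_mul (by norm_num) (by positivity)]
    congr 1
    ring
  have h8 : Real.log 8 ≤ 3 := by
    have h1 : Real.log 8 = 3 * Real.log 2 := by
      rw [show (8 : ℝ) = 2 ^ 3 by norm_num, Real.log_pow]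
      norm_num
    have := Real.log_two_lt_d9
    linarith
  have h80 : 0 ≤ Real.log 8 := Real.log_nonneg (by norm_num)
  have hY0 : 0 ≤ Real.log (8 / lam) + X := by rw [h8l]; linarith
  have hm1 : S / lam * (Real.log (8 / lam) + X) ≤ m := Nat.le_ceil _
  have hm2 : (m : ℝ) ≤ S / lam * (Real.log (8 / lam) + X) + 1 :=
    (Nat.ceil_lt_add_one (by positivity)).le
  have hmη : m * η ≤ S / 2 := by
    have h1 : (m : ℝ) * η ≤ (S / lam * (Real.log (8 / lam) + X) + 1) * η :=
      mul_le_mul_of_nonneg_right hm2 hη.le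
    have h2 : (1 : ℝ) ≤ S / lam := by
      rw [le_div_iff₀ hlam]
      linarith
    have h3 : (S / lam * (Real.log (8 / lam) + X) + 1) ≤
        S / lam * (X + Real.log (1 / lam) + 4) := by
      have h4 : S / lam * (X + Real.log (1 / lam) + 4) =
          S / lam * (Real.log (8 / lam) + X) + S / lam * (4 - Real.log 8) := by
        rw [h8l]
        ring
      rw [h4]
      nlinarith
    have h5 : S / lam * (X + Real.log (1 / lam) + 4) * η ≤ S / 2 := by
      have h6 : S / lam * (X + Real.log (1 / lam) + 4) * η =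
          S / (2 * lam) * (2 * (X + Real.log (1 / lam) + 4) * η) := by
        field_simp
      have h7 : S / (2 * lam) * (2 * (X + Real.log (1 / lam) + 4) * η) ≤ S / (2 * lam) * lam :=
        mul_le_mul_of_nonneg_left hη2 (by positivity)
      have h8 : S / (2 * lam) * lam = S / 2 := by
        field_simp
      linarith
    have h9 := mul_le_mul_of_nonneg_right h3 hη.le
    linarith
  have hlow := (psz d V B E lam η b x hd hlam hη hE0 hV hform).2 m (by
    rw [← hSdef]
    linarith)
  rw [← hSdef] at hlow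
  have hexp : 2 / lam * Real.exp (-(m * lam / S)) ≤ Real.exp (-X) / 4 := by
    have h1 : Real.log (8 / lam) + X ≤ m * lam / S := by
      rw [le_div_iff₀ hS0]
      have h2 := mul_le_mul_of_nonneg_right hm1 hlam.le
      have h3 : S / lam * (Real.log (8 / lam) + X) * lam = (Real.log (8 / lam) + X) * S := by
        field_simp
      linarith
    have h2 : Real.exp (-(m * lam / S)) ≤ Real.exp (-(Real.log (8 / lam) + X)) :=
      Real.exp_le_exp.2 (by linarith)
    have h3 : Real.exp (-(Real.log (8 / lam) + X)) = lam / 8 * Real.exp (-X) := by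
      rw [neg_add, Real.exp_add, Real.exp_neg, Real.exp_log (by positivity), inv_div]
    rw [h3] at h2
    have h4 := mul_le_mul_of_nonneg_left h2 (show (0 : ℝ) ≤ 2 / lam by positivity)
    have h5 : 2 / lam * (lam / 8 * Real.exp (-X)) = Real.exp (-X) / 4 := by
      field_simp
      norm_num
    linarith
  have hhalf : (1 : ℝ) / 2 ≤ 1 - m * η / S := by
    have : m * η / S ≤ 1 / 2 := by
      rw [div_le_iff₀ hS0]
      linarith
    linarith
  have hgpos : 0 < gr V B E b x := lt_of_lt_of_le (Real.exp_pos _) cde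
  have hgB : Real.exp (-X) / 4 ≤ ‖gz V B (zc E η) b x‖ := by
    have h1 : 1 / 2 * gr V B E b x ≤ (1 - m * η / S) * gr V B E b x :=
      mul_le_mul_of_nonneg_right hhalf hgpos.le
    have h2 : Real.exp (-X) ≤ gr V B E b x := cde
    linarith
  have hG : Real.exp (-X) / 8 ≤ ‖gz V Λ (zc E η) b x‖ := by
    rw [hid]
    have h1 : ‖gz V B (zc E η) b x‖ ≤ ‖gz V B (zc E η) b x + T‖ + ‖T‖ := by
      have := norm_sub_le (gz V B (zc E η) b x + T) T
      rwa [add_sub_cancel_right] at this
    linarith
  unfold DZ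
  have h1 := Real.log_le_log (by positivity) hG
  rw [Real.log_div (Real.exp_pos _).ne' (by norm_num), Real.log_exp] at h1
  linarith

theorem cdz (psz : PszStmt) (upz : UpzStmt) (cde : CdeStmt) (cts : CtsStmt) : CdzStmt := by
  intro d hd
  obtain ⟨C₁, hC1, hcde⟩ := cde d hd
  obtain ⟨Ce, hCe, hcde'⟩ := hcde (1 / 50) (by norm_num) le_rfl
  set a : ℝ := 1 + C₁ * (1 / 50) with ha
  have ha1 : 1 ≤ a := by rw [ha]; linarith
  have hd1 : (1 : ℝ) ≤ d := by exact_mod_cast hd
  refine ⟨16 * a + 16 * Ce + 140 * d + 100, by linarith, ?_⟩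
  intro M' n R N v σ z μ lam η p b i hσ hσ1 hv hz0 hz hlam hlam2 hμ hlμ hη hprob hM hnR hbox hC hCη
  classical
  set K : ℝ := 16 * a + 16 * Ce + 140 * d + 100 with hK
  have hne : NeZero M' := ⟨by omega⟩
  have hs0 : 0 < |σ| := abs_pos.2 hσ
  have hsq : 0 < Real.sqrt lam := Real.sqrt_pos.2 hlam
  have hl1 : 0 ≤ Real.log (1 / lam) := by
    apply Real.log_nonneg
    rw [le_div_iff₀ hlam, one_mul]
    linarith
  have hl2 : 0 ≤ Real.log (1 / |σ|) := by
    apply Real.log_nonneg
    rw [le_div_iff₀ hs0, one_mul]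
    exact hσ1
  have hl3 : 0 ≤ Real.log (R : ℝ) := Real.log_natCast_nonneg R
  set L : ℝ := 1 + Real.log (1 / lam) + Real.log (1 / |σ|) + Real.log R with hL
  have hL1 : 1 ≤ L := by rw [hL]; linarith
  have hK0 : 0 < K := by rw [hK]; linarith
  have hsR : 0 < Real.sqrt lam * R := lt_of_lt_of_le (by positivity) hC
  have hR0 : (0 : ℝ) < R := by
    by_contra hc
    have : (R : ℝ) = 0 := le_antisymm (not_lt.1 hc) (Nat.cast_nonneg R)
    rw [this, mul_zero] at hsR
    exact lt_irrefl _ hsR
  have hR : 1 ≤ R := by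
    have : 0 < R := by exact_mod_cast hR0
    omega
  have hR1 : (1 : ℝ) ≤ R := by exact_mod_cast hR
  have hn0 : (0 : ℝ) ≤ n := Nat.cast_nonneg n
  have hnR' : (n : ℝ) ≤ R := by
    have : 1 * (n : ℝ) ≤ K * n := mul_le_mul_of_nonneg_right (by rw [hK]; linarith) hn0
    linarith
  have hnRN : n ≤ R := by exact_mod_cast hnR'
  have hlog6 : Real.log (6 * R) ≤ 2 + Real.log R := by
    rw [Real.log_mul (by norm_num) (by positivity)]
    have h6 : Real.log 6 ≤ 2 := by
      rw [Real.log_le_iff_le_exp (by norm_num)]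
      have h1 := Real.exp_one_gt_d9
      have h2 : Real.exp 2 = Real.exp 1 * Real.exp 1 := by
        rw [← Real.exp_add]
        norm_num
      rw [h2]
      nlinarith
    linarith
  have hdR : (d : ℝ) * Real.log (6 * R) ≤ 3 * (d * L) := by
    have : 2 + Real.log R ≤ 3 * L := by rw [hL]; linarith
    calc (d : ℝ) * Real.log (6 * R) ≤ d * (3 * L) :=
          mul_le_mul_of_nonneg_left (hlog6.trans this) (by positivity)
      _ = _ := by ring
  have hKL : K * L = 16 * (a * L) + 16 * (Ce * L) + 140 * (d * L) + 100 * L := by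
    rw [hK]
    ring
  have haL : 0 ≤ a * L := by positivity
  have hCeL : Ce ≤ Ce * L := le_mul_of_one_le_right (by linarith) hL1
  have hdL : (d : ℝ) ≤ d * L := le_mul_of_one_le_right (by linarith) hL1
  -- p is positive
  have hv0 : v ≠ 0 := by
    intro h
    rw [h] at hv
    have : 0 < σ ^ 2 := by positivity
    rw [← hv] at this
    simp at this
  have hp : 0 < p := by
    have h1 := hprob hne
    have h2 : gau d M' v {V | ¬ FlatE (1 / 50) z μ V} ≠ 0 := H42Z.gau_bad_pos hv0
    rw [← ENNReal.ofReal_pos]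
    exact lt_of_lt_of_le (pos_iff_ne_zero.2 h2) h1
  -- the events
  set f : (Site d → ℝ) → (Tor d M' → ℝ) := fun V x => V (b + rep x) with hf
  set B1 : Set (Site d → ℝ) := f ⁻¹' {U | ¬ FlatE (1 / 50) z μ U} with hB1
  have pB1 : PP d (gl σ) B1 ≤ ENNReal.ofReal p := by
    have hfm : Measurable f := measurable_pi_lambda _ fun x => measurable_pi_apply _
    refine (Measure.le_map_apply hfm.aemeasurable _).trans ?_
    have h4 := H73.lawT d M' (Site d → ℝ) (PP d (gl σ)) (H54W.xi σ b) (H54W.measurable_xi σ b)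
      (H54W.map_xi hσ b) (H54W.indep_xi b) σ v hv
    have h5 : (fun (V : Site d → ℝ) (x : Tor d M') => σ * H54W.xi σ b (rep x) V) = f := by
      funext V x
      simp only [H54W.xi, hf]
      field_simp
    rw [h5] at h4
    rw [h4]
    exact hprob hne
  set x : Site d := b + Pi.single i (n : ℤ) with hx
  set E := z + lam with hE
  have him : 0 < (zc E η).im := by
    have : (zc E η).im = η := by
      unfold zc
      simp
    rw [this]
    exact hη
  set T : ℝ := Real.exp (Real.sqrt lam * R / 8) with hT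
  have hT0 : 0 < T := Real.exp_pos _
  have pB3 : ∀ u ∈ box b (n + R + 1),
      PP d (gl σ) {V | T < ‖gz V (box (0 : Site d) N) (zc E η) u x‖} ≤
      ENNReal.ofReal (10 / |σ| / T) := fun u _ => upz d σ T (zc E η) _ u x hσ hT0 him
  set X : ℝ := a * Real.sqrt lam * n + Ce * (1 + Real.log (1 / lam)) with hX
  have hX0 : 0 ≤ X := by rw [hX]; positivity
  have hsn : 0 ≤ Real.sqrt lam * n := by positivity
  have hKs : ∀ c₁ c₂ : ℝ, 0 ≤ c₁ → 0 ≤ c₂ →
      c₁ * (1 + Real.log (1 / lam)) + c₂ * (Real.sqrt lam * n) ≤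
        (c₁ + c₂) * (1 + Real.log (1 / lam) + Real.sqrt lam * n) := by
    intro c₁ c₂ h1 h2
    have h3 := mul_nonneg h1 hsn
    have h4 := mul_nonneg h2 (show 0 ≤ 1 + Real.log (1 / lam) by linarith)
    nlinarith
  have hsub : {V | ¬ DZ (box 0 N) (zc E η) V b (b + pt i n) ≤
      K * (1 + Real.log (1 / lam) + Real.sqrt lam * n)} ⊆
      B1 ∪ ⋃ u ∈ box b (n + R + 1), {V | T < ‖gz V (box (0 : Site d) N) (zc E η) u x‖} := by
    intro V hV
    by_contra hc
    simp only [Set.mem_union, Set.mem_iUnion, not_or, not_exists, Set.mem_ofPred_eq] at hc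
    obtain ⟨c1, c3⟩ := hc
    rw [hB1, Set.mem_preimage, Set.mem_ofPred_eq, not_not] at c1
    apply hV
    have hCeR : Ce / Real.sqrt lam ≤ R := by
      rw [div_le_iff₀ hsq]
      linarith
    have h1 := hcde' M' z μ lam V b n R i hz hlam hlam2 hμ (by linarith) hM c1 hCeR
    have h2 := cdz_det (X := X) psz cts hd
      (M' := M') (n := n) (R := R) (N := N) (z := z) (μ := μ) (lam := lam) (η := η) (V := V)
      (b := b) (i := i) hX0 h1 hz0 hz hlam hlam2 hμ hη hM hnRN hR hbox c1
      (fun u hu => not_lt.1 (c3 u hu)) (by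
        have h3 : 2 * (X + Real.log (1 / lam) + 4) ≤
            K * (1 + Real.log (1 / lam) + Real.sqrt lam * n) := by
          have h4 := hKs (2 * Ce + 8) (2 * a) (by linarith) (by linarith)
          have h5 : (2 * Ce + 8 + 2 * a) * (1 + Real.log (1 / lam) + Real.sqrt lam * n) ≤
              K * (1 + Real.log (1 / lam) + Real.sqrt lam * n) := by
            apply mul_le_mul_of_nonneg_right _ (by linarith)
            rw [hK]
            linarith
          have h6 : 2 * (X + Real.log (1 / lam) + 4) =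
              (2 * Ce + 8) * (1 + Real.log (1 / lam)) + 2 * a * (Real.sqrt lam * n) -
                6 * Real.log (1 / lam) := by
            rw [hX]
            ring
          linarith
        have h7 := mul_le_mul_of_nonneg_right h3 hη.le
        linarith) (by
        have a1 : Real.log (32 * d) ≤ 32 * d := by
          have := Real.log_le_sub_one_of_pos (show (0 : ℝ) < 32 * d by positivity)
          linarith
        have a3 : Real.log (1 / lam) ≤ L := by rw [hL]; linarith
        have a4 : 1 + Real.log (1 / lam) ≤ L := by rw [hL]; linarith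
        have a5 : Ce * (1 + Real.log (1 / lam)) ≤ Ce * L :=
          mul_le_mul_of_nonneg_left a4 (by linarith)
        have a6 : a * Real.sqrt lam * n ≤ Real.sqrt lam * R / 8 := by
          have b1 : 8 * a * n ≤ R := by
            have : 8 * a * n ≤ K * n :=
              mul_le_mul_of_nonneg_right (by rw [hK]; linarith) hn0
            linarith
          have b2 := mul_le_mul_of_nonneg_left b1 hsq.le
          have b3 : Real.sqrt lam * (8 * a * n) = 8 * (a * Real.sqrt lam * n) := by ring
          linarith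
        rw [hX]
        linarith)
    refine h2.trans ?_
    have h4 := hKs (Ce + 3) a (by linarith) (by linarith)
    have h5 : (Ce + 3 + a) * (1 + Real.log (1 / lam) + Real.sqrt lam * n) ≤
        K * (1 + Real.log (1 / lam) + Real.sqrt lam * n) := by
      apply mul_le_mul_of_nonneg_right _ (by linarith)
      rw [hK]
      linarith
    have h6 : X + 3 = (Ce + 3) * (1 + Real.log (1 / lam)) + a * (Real.sqrt lam * n) -
        3 * Real.log (1 / lam) := by
      rw [hX]
      ring
    linarith
  refine (measure_mono hsub).trans ((measure_union_le _ _).trans ?_)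
  have hU2 : PP d (gl σ) (⋃ u ∈ box b (n + R + 1),
      {V | T < ‖gz V (box (0 : Site d) N) (zc E η) u x‖}) ≤
      ENNReal.ofReal (Real.exp (-(Real.sqrt lam * R / 16))) := by
    refine (measure_biUnion_finset_le _ _).trans ((Finset.sum_le_sum pB3).trans ?_)
    rw [Finset.sum_const, nsmul_eq_mul, card_box, ← ENNReal.ofReal_natCast,
      ← ENNReal.ofReal_mul (by positivity)]
    apply ENNReal.ofReal_le_ofReal
    have hc1 : (((2 * (n + R + 1) + 1) ^ d : ℕ) : ℝ) ≤ (8 * R : ℝ) ^ d := by
      push_cast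
      apply pow_le_pow_left₀ (by positivity)
      linarith
    have hpos : 0 ≤ 10 / |σ| / T := by positivity
    refine (mul_le_mul_of_nonneg_right hc1 hpos).trans ?_
    have e1 : (8 * R : ℝ) ^ d * (10 / |σ|) ≤ Real.exp (Real.sqrt lam * R / 16) := by
      have hq : (0 : ℝ) < (8 * R) ^ d * (10 / |σ|) := by positivity
      have l1 : Real.log ((8 * R : ℝ) ^ d * (10 / |σ|)) =
          d * Real.log (8 * R) + (Real.log 10 + Real.log (1 / |σ|)) := by
        rw [Real.log_mul (by positivity) (by positivity), Real.log_pow]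
        congr 1
        rw [← Real.log_mul (by norm_num) (by positivity)]
        congr 1
        ring
      rw [← Real.log_le_iff_le_exp hq, l1]
      have he2 : (7.38 : ℝ) ≤ Real.exp 2 := by
        have h1 := Real.exp_one_gt_d9
        have h2 : Real.exp 2 = Real.exp 1 * Real.exp 1 := by
          rw [← Real.exp_add]
          norm_num
        rw [h2]
        nlinarith
      have h10 : Real.log 10 ≤ 3 := by
        rw [Real.log_le_iff_le_exp (by norm_num)]
        have h1 := Real.exp_one_gt_d9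
        have h2 : Real.exp 3 = Real.exp 2 * Real.exp 1 := by
          rw [← Real.exp_add]
          norm_num
        rw [h2]
        nlinarith
      have h8 : Real.log (8 * R) ≤ 3 * L := by
        rw [Real.log_mul (by norm_num) (by positivity)]
        have h8' : Real.log 8 ≤ 3 := by
          have h1 : Real.log 8 = 3 * Real.log 2 := by
            rw [show (8 : ℝ) = 2 ^ 3 by norm_num, Real.log_pow]
            norm_num
          have := Real.log_two_lt_d9
          linarith
        rw [hL]
        linarith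
      have h8d : (d : ℝ) * Real.log (8 * R) ≤ 3 * (d * L) := by
        calc (d : ℝ) * Real.log (8 * R) ≤ d * (3 * L) :=
              mul_le_mul_of_nonneg_left h8 (by positivity)
          _ = _ := by ring
      have a3 : Real.log (1 / |σ|) ≤ L := by rw [hL]; linarith
      linarith
    have e2 : Real.exp (-(Real.sqrt lam * R / 16)) * T = Real.exp (Real.sqrt lam * R / 16) := by
      rw [hT, ← Real.exp_add]
      congr 1
      ring
    rw [← mul_div_assoc, div_le_iff₀ hT0, e2]
    exact e1
  refine (add_le_add pB1 hU2).trans ?_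
  rw [← ENNReal.ofReal_add hp.le (Real.exp_pos _).le]

end Pool.Agent.LE.MN.H87
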